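import Pool.Agent.Helper94.YF.St

set_option autoImplicit false

namespace Pool.Agent.Helper22.YF

open Pool.Agent.Helper94.YF
open Matrix ComplexConjugate

private theorem ypr_comm {L : ℕ} (b : ZMod L) (hb : b * b = b) :
    (U (1 - b) : SL L) * Lo b = Lo b * U (1 - b) := by
  apply Subtype.ext
  have h1 : (1 - b) * b = 0 := by rw [sub_mul, one_mul, hb, sub_self]
  have h2 : b * (1 - b) = 0 := by rw [mul_sub, mul_one, hb, sub_self]
  rw [Matrix.SpecialLinearGroup.coe_mul, Matrix.SpecialLinearGroup.coe_mul]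
  simp only [U, Lo]
  ext i j
  fin_cases i <;> fin_cases j <;> simp [Matrix.mul_apply, Fin.sum_univ_two, h1, h2]

theorem hYPR : Pool.Agent.Helper94.YF.StYPR := by
  intro hFUS hDUA I _ _ Z b y hb hy
  obtain ⟨hU, _, htwadd, htw0, htw1, htwo, _, _, hsym, hdimr, _⟩ := hFUS hDUA I Z
  obtain ⟨_, hsto, _, _, _, hst⟩ := hDUA I Z
  have htwb : ∀ i, Z.tw b i * Z.tw (-b) i = 1 := by
    intro i
    rw [← htwadd, add_neg_cancel, htw0]
  have hs2 : ∀ i, Z.rho (s2 b) i Z.o = Z.tw (-b) i * Z.rho (Lo b) i Z.o := by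
    intro i
    rw [s2, map_mul, map_mul, hU, Matrix.mul_diagonal, Matrix.diagonal_mul, htwo, mul_one]
  have hal : ∀ i, 2 * Z.rho (Lo b) i Z.o = Z.tw b i * y i := by
    intro i
    rw [hy i, hs2 i]
    linear_combination (-2 * Z.rho (Lo b) i Z.o) * htwb i
  have hkap : ∀ (z : ZMod Z.L) i, Z.tw z i * (Z.kap i : ℂ) = Z.kap i := by
    intro z i
    have := Z.kap_inv (U z) i
    rw [hU, Finset.sum_eq_single i] at this
    · rwa [Matrix.diagonal_apply_eq] at this
    · intro j _ hj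
      rw [Matrix.diagonal_apply_ne _ (Ne.symm hj), zero_mul]
    · intro h
      exact absurd (Finset.mem_univ i) h
  refine ⟨hy, hal, ?_, ?_, ?_, ?_, ?_, ?_⟩
  · -- `sq`
    have h1 := congrFun (congrFun (Z.unitary (s2 b)) Z.o) Z.o
    rw [Matrix.mul_apply, Matrix.one_apply_eq] at h1
    have h2 : ∀ i, (Z.rho (s2 b))ᴴ Z.o i * Z.rho (s2 b) i Z.o = ((y i : ℂ)) ^ 2 / 4 := by
      intro i
      rw [Matrix.conjTranspose_apply]
      have h3 : Z.rho (s2 b) i Z.o = (y i : ℂ) / 2 := by rw [hy i]; ring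
      rw [h3]
      have h4 : star ((y i : ℂ) / 2) = (y i : ℂ) / 2 := by
        rw [star_div₀]
        simp
      rw [h4]
      ring
    simp only [h2] at h1
    rw [← Finset.sum_div] at h1
    have h5 : (∑ i, (y i : ℂ) ^ 2) = 4 := by
      rw [div_eq_iff (by norm_num : (4 : ℂ) ≠ 0)] at h1
      rw [h1]; norm_num
    exact_mod_cast h5
  · -- `dim`
    have h1 := hdimr b Z.o
    rw [Z.d_o] at h1
    have h2 : ∀ j, Z.tw b j * (y j : ℂ) * (Z.d j : ℂ) = 2 * (Z.rho (Lo b) Z.o j * (Z.d j : ℂ)) := by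
      intro j
      rw [← hal j, hsym b Z.o j]
      ring
    simp only [h2]
    rw [← Finset.mul_sum, h1]
    norm_num
  · -- `kapth`
    intro i hi
    have hi' : (Z.kap i : ℂ) ≠ 0 := by exact_mod_cast hi
    refine ⟨?_, ?_⟩
    · have := hkap 1 i
      rw [htw1] at this
      exact mul_right_cancel₀ hi' (by rw [this, one_mul])
    · have := hkap b i
      exact mul_right_cancel₀ hi' (by rw [this, one_mul])
  · -- `kap`
    have h1 := Z.kap_inv (Lo b) Z.o
    rw [Z.kap_o] at h1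
    have h2 : ∀ j, ((y j : ℂ) * (Z.kap j : ℂ)) = 2 * (Z.rho (Lo b) Z.o j * (Z.kap j : ℂ)) := by
      intro j
      rw [hsym b Z.o j]
      linear_combination (-(y j : ℂ)) * hkap b j - (Z.kap j : ℂ) * hal j
    have h3 : (∑ j, (y j : ℂ) * (Z.kap j : ℂ)) = 2 := by
      simp only [h2]
      rw [← Finset.mul_sum, h1]
      norm_num
    exact_mod_cast h3
  · -- `odd`
    intro i j hij
    have h1 := congrArg Z.rho (ypr_comm b hb)
    rw [map_mul, map_mul, hU] at h1
    have h2 := congrFun (congrFun h1 i) j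
    rw [Matrix.diagonal_mul, Matrix.mul_diagonal, mul_comm (Z.rho (Lo b) i j)] at h2
    exact mul_right_cancel₀ hij h2
  · -- `dual`
    intro i
    have h1 := hst (s2 b) i Z.o
    rw [hsto] at h1
    have h2 : (y (Z.st i) : ℂ) = (y i : ℂ) := by rw [hy, hy, h1]
    exact_mod_cast h2

end Pool.Agent.Helper22.YF
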